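import Pool.Agent.Y497.LW.Poly

/-!
# Project LW, part E: the sieve product without the primes dividing `c`
-/

set_option autoImplicit false

open Finset

namespace Pool.Agent.Y889.LW

open Pool.Agent.Y843.HS

theorem prod_sub {s t : Finset ℕ} (h : s ⊆ t) (f : ℕ → ℝ) (h0 : ∀ p ∈ t, 0 ≤ f p)
    (h1 : ∀ p ∈ t, f p ≤ 1) : ∏ p ∈ t, f p ≤ ∏ p ∈ s, f p := by
  classical
  rw [← Finset.prod_sdiff h]
  refine mul_le_of_le_one_left (Finset.prod_nonneg fun p hp => h0 p (h hp)) ?_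
  exact Finset.prod_le_one (fun p hp => h0 p (mem_sdiff.1 hp).1) fun p hp => h1 p (mem_sdiff.1 hp).1

theorem t_VVC : ∃ C : ℝ, 0 < C ∧ ∃ X₀ : ℕ, ∀ X : ℕ, X₀ ≤ X → ∀ c : ℕ, 1 ≤ c →
    ∀ Z : ℕ → Finset ℕ, (∀ p : ℕ, ¬ p ∣ c → (Z p).card = 1) → (∀ p : ℕ, p ∣ c → (Z p).card = 0) →
    0 ≤ VV Z 0 ⌊(X : ℝ) ^ (1 / 2 : ℝ)⌋₊ ∧
      VV Z 0 ⌊(X : ℝ) ^ (1 / 2 : ℝ)⌋₊ ≤ C * (c / (Nat.totient c : ℝ)) / Real.log X := by
  classical
  obtain ⟨C, hC, X₀, hX₀⟩ := Pool.Agent.Y497.LW.VV_le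
  refine ⟨C, hC, X₀, fun X hX c hc Z hZ1 hZ0 => ?_⟩
  obtain ⟨-, hV⟩ := hX₀ X hX (fun _ => {0}) (fun _ => card_singleton _)
  obtain ⟨y, hy⟩ : ∃ y : ℕ, y = ⌊(X : ℝ) ^ (1 / 2 : ℝ)⌋₊ := ⟨_, rfl⟩
  rw [← hy] at hV ⊢
  have hp1 : ∀ p : ℕ, p.Prime → 0 < 1 - (1 : ℝ) / p ∧ 1 - (1 : ℝ) / p ≤ 1 := by
    intro p hp
    have h1 : (1 : ℝ) < p := by exact_mod_cast hp.one_lt
    have h2 : (1 : ℝ) / p < 1 := by rw [div_lt_one (by linarith)]; exact h1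
    have h3 : (0 : ℝ) ≤ 1 / p := by positivity
    exact ⟨by linarith, by linarith⟩
  have hpr : ∀ p ∈ Pr 0 y, p.Prime := fun p hp => (mem_filter.1 hp).2
  have hZ01 : 0 ≤ VV Z 0 y := by
    unfold VV
    refine prod_nonneg fun p hp => ?_
    by_cases h : p ∣ c
    · rw [hZ0 p h]
      simp
    · rw [hZ1 p h]
      have := (hp1 p (hpr p hp)).1
      push_cast
      linarith
  refine ⟨hZ01, ?_⟩
  have h1 : VV Z 0 y * ∏ p ∈ (Pr 0 y).filter (fun p => p ∣ c), (1 - (1 : ℝ) / p) =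
      VV (fun _ => {0}) 0 y := by
    unfold VV
    rw [Finset.prod_filter, ← Finset.prod_mul_distrib]
    refine prod_congr rfl fun p _ => ?_
    by_cases h : p ∣ c
    · rw [hZ0 p h, if_pos h, card_singleton]
      simp
    · rw [hZ1 p h, if_neg h, card_singleton, mul_one]
  have hφ : (0 : ℝ) < Nat.totient c := by exact_mod_cast Nat.totient_pos.2 hc
  have hc0 : (0 : ℝ) < c := by exact_mod_cast hc
  have h2 : (Nat.totient c : ℝ) / c = ∏ p ∈ c.primeFactors, (1 - (1 : ℝ) / p) := by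
    have h3 := Nat.totient_eq_mul_prod_factors c
    have h4 : (Nat.totient c : ℝ) = c * ∏ p ∈ c.primeFactors, (1 - (p : ℝ)⁻¹) := by
      have h5 := congrArg (fun q : ℚ => (q : ℝ)) h3
      push_cast at h5
      exact h5
    rw [h4, mul_div_cancel_left₀ _ hc0.ne']
    simp only [one_div]
  have h3 : (Nat.totient c : ℝ) / c ≤
      ∏ p ∈ (Pr 0 y).filter (fun p => p ∣ c), (1 - (1 : ℝ) / p) := by
    rw [h2]
    refine prod_sub ?_ _ (fun p hp => (hp1 p (Nat.prime_of_mem_primeFactors hp)).1.le)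
      (fun p hp => (hp1 p (Nat.prime_of_mem_primeFactors hp)).2)
    intro p hp
    rw [mem_filter] at hp
    exact Nat.mem_primeFactors.2 ⟨hpr p hp.1, hp.2, by omega⟩
  have h4 : VV Z 0 y * ((Nat.totient c : ℝ) / c) ≤ C / Real.log X :=
    (mul_le_mul_of_nonneg_left h3 hZ01).trans (h1.le.trans hV)
  have h5 : VV Z 0 y = VV Z 0 y * ((Nat.totient c : ℝ) / c) * (c / Nat.totient c) := by
    field_simp
  rw [h5]
  refine (mul_le_mul_of_nonneg_right h4 (by positivity)).trans_eq ?_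
  ring

end Pool.Agent.Y889.LW
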